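import Pool.Agent.Lib.MP_a2b267_co.Cex

set_option autoImplicit false

namespace Pool.Agent.Results.MP_a2b267_co.Counterexample

open Pool.Agent.MP_a2b267_co

/-- There is a loopless finite multigraph on 148 vertices (edge `e` has ends `s e` and `t e`) that
stays connected after deleting any set of fewer than 8 edges and has no integer flow with all
values in `{±2, ±3}`, that is, no circular 5/2-flow. -/
theorem result :
    ∃ (V E : Type) (_ : Fintype V) (_ : DecidableEq V) (_ : Fintype E) (s t : E → V),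
      Fintype.card V = 148 ∧ (∀ e, s e ≠ t e) ∧
      (∀ D : Finset E, D.card < 8 → ∀ a b : V,
        Relation.EqvGen (fun x y => ∃ e, e ∉ D ∧ s e = x ∧ t e = y) a b) ∧
      ¬ ∃ f : E → ℤ, (∀ e, |f e| = 2 ∨ |f e| = 3) ∧
        ∀ v : V, (∑ e ∈ Finset.univ.filter (fun e => t e = v), f e)
          = ∑ e ∈ Finset.univ.filter (fun e => s e = v), f e := by
  refine ⟨Cex.V, Cex.E, inferInstance, inferInstance, inferInstance, Cex.src, Cex.tgt,
    by decide +kernel, by decide +kernel, ?_, ?_⟩
  · intro D hD a b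
    by_contra hab
    let S : Set Cex.V :=
      {v | Relation.EqvGen (fun x y => ∃ e, e ∉ D ∧ Cex.src e = x ∧ Cex.tgt e = y) a v}
    have h8 := Cex.conn S ⟨a, Relation.EqvGen.refl a⟩ ⟨b, hab⟩
    have hsub : ∀ e, Cex.Cut S e → e ∈ D := by
      intro e he
      by_contra hD'
      have r : Relation.EqvGen (fun x y => ∃ e, e ∉ D ∧ Cex.src e = x ∧ Cex.tgt e = y)
          (Cex.src e) (Cex.tgt e) := Relation.EqvGen.rel _ _ ⟨e, hD', rfl, rfl⟩
      rcases he with ⟨h1, h2⟩ | ⟨h1, h2⟩
      · exact h2 (Relation.EqvGen.trans _ _ _ h1 r)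
      · exact h1 (Relation.EqvGen.trans _ _ _ h2 (Relation.EqvGen.symm _ _ r))
    have hle : Nat.card {e : Cex.E // Cex.Cut S e} ≤ Nat.card D :=
      Nat.card_le_card_of_injective (fun e => (⟨e.1, hsub e.1 e.2⟩ : D))
        (fun x y h => Subtype.ext (congrArg (fun z : D => z.1) h))
    rw [Nat.card_eq_finsetCard] at hle
    omega
  · rintro ⟨f, hf, hc⟩
    refine Cex.no_flow (fun e => (f e : ℝ) / 2) (fun e => ?_) (fun v => ?_)
    · have h2 : |(f e : ℝ) / 2| = ((|f e| : ℤ) : ℝ) / 2 := by
        rw [abs_div, Int.cast_abs]; norm_num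
      rw [h2]
      rcases hf e with h | h <;> rw [h] <;> norm_num
    · rw [← Finset.sum_div, ← Finset.sum_div, ← Int.cast_sum, ← Int.cast_sum, hc v]

end Pool.Agent.Results.MP_a2b267_co.Counterexample
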