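import Pool.Agent.Lib.MP_a2b267_co.Main

set_option autoImplicit false

namespace Pool.Agent.Results.MP_a2b267_co.OddCutFlow

open Pool.Agent.Lib.MP_a2b267_co

/-- Let `l ≥ 3` be odd and `m ≥ 2`. A finite multigraph in which every edge cut of odd size has at
least `l` edges and which has at most `m` vertices of odd degree has a real flow whose values lie,
in absolute value, between `1` and `((l+2)m-2)/((l-2)m+2)`. -/
theorem result :
    ∀ (V E : Type) [Fintype V] [DecidableEq V] [Fintype E] (s t : E → V) (l m : ℕ),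
      Odd l → 3 ≤ l → 2 ≤ m →
      (∀ S : Set V, Odd (Nat.card {e : E // (s e ∈ S ∧ t e ∉ S) ∨ (s e ∉ S ∧ t e ∈ S)}) →
        l ≤ Nat.card {e : E // (s e ∈ S ∧ t e ∉ S) ∨ (s e ∉ S ∧ t e ∈ S)}) →
      Nat.card {v : V // Odd (Nat.card {e : E // (s e = v ∧ t e ≠ v) ∨ (s e ≠ v ∧ t e = v)})} ≤ m →
      ∃ f : E → ℝ,
        (∀ e, 1 ≤ |f e| ∧ |f e| ≤ (((l : ℝ) + 2) * m - 2) / (((l : ℝ) - 2) * m + 2)) ∧
        ∀ v : V, (∑ e ∈ Finset.univ.filter (fun e => t e = v), f e)
                 = ∑ e ∈ Finset.univ.filter (fun e => s e = v), f e := by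
  intro V E _ _ _ s t l m hl hl3 hm H hodd
  classical
  have hcut : ∀ A : Finset V,
      Nat.card {e : E // (s e ∈ (A : Set V) ∧ t e ∉ (A : Set V)) ∨
        (s e ∉ (A : Set V) ∧ t e ∈ (A : Set V))} = cut s t A := by
    intro A
    rw [Nat.card_eq_fintype_card, Fintype.card_subtype, Finset.card_filter, cut]
    refine Finset.sum_congr rfl fun e _ => ?_
    by_cases h1 : s e ∈ A <;> by_cases h2 : t e ∈ A <;> simp [h1, h2]
  have hdeg : ∀ v : V,
      Nat.card {e : E // (s e = v ∧ t e ≠ v) ∨ (s e ≠ v ∧ t e = v)} = cut s t {v} := by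
    intro v
    rw [← hcut]
    simp
  obtain ⟨f, hf1, hf2⟩ := flow_main s t l m hl hl3 hm
    (fun A hA => by rw [← hcut] at hA ⊢; exact H _ hA)
    (by
      simp only [hdeg] at hodd
      rwa [Nat.card_eq_fintype_card, Fintype.card_subtype] at hodd)
  refine ⟨f, hf1, fun v => ?_⟩
  have h := hf2 v
  simp only [bd, inc, mul_sub, Finset.sum_sub_distrib, mul_ite, mul_one, mul_zero] at h
  rw [Finset.sum_filter, Finset.sum_filter]
  linarith

end Pool.Agent.Results.MP_a2b267_co.OddCutFlow
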