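import Pool.Agent.Lib.MP_a2b267_co.Strong

set_option autoImplicit false

namespace Pool.Agent.Results.MP_a2b267_co.TreesOrientation

open Pool.Agent.Lib.MP_a2b267_co

/-- If every partition of the vertex set into `q` classes is crossed by at least `k (q - 1)` edges,
then the outdegrees of an orientation (`o e` is the tail of `e`) can be prescribed modulo `k`. -/
theorem result :
    ∀ (V E : Type) [Fintype V] [Fintype E] (s t : E → V) (k : ℕ), 0 < k →
      (∀ r : Setoid V, k * (Nat.card (Quotient r) - 1) ≤ Nat.card {e : E // ¬ r (s e) (t e)}) →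
      ∀ p : V → ZMod k, ∑ v, p v = (Nat.card E : ZMod k) →
        ∃ o : E → V, (∀ e, o e = s e ∨ o e = t e) ∧
          ∀ v : V, (Nat.card {e : E // o e = v} : ZMod k) = p v := by
  intro V E _ _ s t k hk H p hp
  classical
  obtain ⟨o, ho1, ho2⟩ := orient_main s t k hk
    (by
      intro α _ π
      have h1 := H (Setoid.ker π)
      have h2 : Nat.card (Quotient (Setoid.ker π)) = (Finset.univ.image π).card := by
        rw [Nat.card_congr (Setoid.quotientKerEquivRange π), ← Set.toFinset_range,
          Nat.card_eq_fintype_card, Set.toFinset_card]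
      have h3 : Nat.card {e : E // ¬ (Setoid.ker π) (s e) (t e)}
          = ∑ e, if π (s e) ≠ π (t e) then 1 else 0 := by
        rw [Nat.card_eq_fintype_card, Fintype.card_subtype, Finset.card_filter]
        refine Finset.sum_congr rfl fun e _ => ?_
        simp only [Setoid.ker_def, ne_eq]
      rw [h2, h3] at h1
      have h4 : ((Finset.univ.image π).card : ℝ) - 1 ≤ ((Finset.univ.image π).card - 1 : ℕ) := by
        have : (Finset.univ.image π).card ≤ ((Finset.univ.image π).card - 1) + 1 := by omega
        have h5 : ((Finset.univ.image π).card : ℝ) ≤ (((Finset.univ.image π).card - 1 : ℕ) : ℝ) + 1 := by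
          exact_mod_cast this
        linarith
      have h6 : (k : ℝ) * (((Finset.univ.image π).card - 1 : ℕ) : ℝ) ≤
          ((∑ e, if π (s e) ≠ π (t e) then 1 else 0 : ℕ) : ℝ) := by exact_mod_cast h1
      exact le_trans (mul_le_mul_of_nonneg_left h4 (Nat.cast_nonneg k)) h6)
    (fun v => (p v).cast)
    (by
      rw [← ZMod.intCast_zmod_eq_zero_iff_dvd]
      push_cast
      rw [hp, Nat.card_eq_fintype_card, sub_self])
  refine ⟨o, ho1, fun v => ?_⟩
  have h := ho2 v
  rw [← ZMod.intCast_zmod_eq_zero_iff_dvd] at h
  push_cast at h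
  rw [Nat.card_eq_fintype_card, Fintype.card_subtype]
  exact sub_eq_zero.mp h

end Pool.Agent.Results.MP_a2b267_co.TreesOrientation
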